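import Pool.Agent.K3h94.AT.Stm

/-!
# Counting with gaps (brick CNT)
-/

set_option autoImplicit false

open Finset

namespace Pool.Agent.K3h66.AT

open Pool.Agent.K3h94.AT

theorem t_CNT : S_CNT := by
  intro E c n₀ hc hn₀ hgap
  have hl2 : 0 < Real.log 2 := Real.log_pos (by norm_num)
  refine ⟨n₀ / Real.log 2 ^ 2 + 2 / Real.log 2 * (1 / c + 1 / Real.log 2), fun N hN => ?_⟩
  have hL : Real.log 2 ≤ Real.log N := Real.log_le_log (by norm_num) (by exact_mod_cast hN)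
  have hL0 : 0 < Real.log N := hl2.trans_le hL
  generalize hLN : Real.log (N : ℝ) = L at hL hL0 ⊢
  -- the map
  let f : ℕ → ℕ × ℕ := fun n => (Nat.log 2 n,
    ⌊((n : ℝ) - 2 ^ Nat.log 2 n) * L / (c * 2 ^ Nat.log 2 n)⌋₊)
  have hpow : ∀ n : ℕ, n₀ ≤ n → (2 : ℝ) ^ Nat.log 2 n ≤ n ∧ (n : ℝ) < 2 * 2 ^ Nat.log 2 n := by
    intro n hn
    have h1 : 2 ^ Nat.log 2 n ≤ n := Nat.pow_log_le_self 2 (by omega)
    have h2 : n < 2 ^ (Nat.log 2 n + 1) := Nat.lt_pow_succ_log_self (by norm_num) n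
    rw [pow_succ] at h2
    refine ⟨by exact_mod_cast h1, ?_⟩
    have h3 : (n : ℝ) < 2 ^ Nat.log 2 n * 2 := by exact_mod_cast h2
    linarith
  have hlt : ∀ n m : ℕ, n ∈ E → m ∈ E → n₀ ≤ n → m ≤ N → n < m → f n ≠ f m := by
    intro n m hnE hmE hn hm hnm hf
    have hk : Nat.log 2 n = Nat.log 2 m := congrArg Prod.fst hf
    have hfl := congrArg Prod.snd hf
    simp only [f] at hfl
    rw [← hk] at hfl
    obtain ⟨h1, h2⟩ := hpow n hn
    obtain ⟨h3, h4⟩ := hpow m (by omega)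
    rw [← hk] at h3 h4
    have hm2 : m ≤ 2 * n := by
      have : (m : ℝ) ≤ 2 * n := by linarith
      exact_mod_cast this
    have hg := hgap n m hn hnm hm2 hnE hmE
    have hk0 : (0 : ℝ) < 2 ^ Nat.log 2 n := by positivity
    have hn2 : (2 : ℝ) ≤ n := by exact_mod_cast hn₀.trans hn
    have hlogn : 0 < Real.log n := Real.log_pos (by linarith)
    have hlogL : Real.log n ≤ L := by
      rw [← hLN]
      exact Real.log_le_log (by linarith) (by exact_mod_cast (hnm.le.trans hm))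
    have h5 : ((n : ℝ) - 2 ^ Nat.log 2 n) * L / (c * 2 ^ Nat.log 2 n) + 1 ≤
        ((m : ℝ) - 2 ^ Nat.log 2 n) * L / (c * 2 ^ Nat.log 2 n) := by
      rw [div_add_one (by positivity), div_le_div_iff_of_pos_right (by positivity)]
      have h6 : c * n ≤ ((m : ℝ) - n) * Real.log n := by
        rwa [div_le_iff₀ hlogn] at hg
      have h7 : ((m : ℝ) - n) * Real.log n ≤ ((m : ℝ) - n) * L := by
        refine mul_le_mul_of_nonneg_left hlogL ?_
        have : (n : ℝ) < m := by exact_mod_cast hnm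
        linarith
      have h8 : c * 2 ^ Nat.log 2 n ≤ c * n := mul_le_mul_of_nonneg_left h1 hc.le
      nlinarith
    have h9 : (0 : ℝ) ≤ ((n : ℝ) - 2 ^ Nat.log 2 n) * L / (c * 2 ^ Nat.log 2 n) := by
      apply div_nonneg
      · exact mul_nonneg (by linarith) hL0.le
      · positivity
    have h10 := Nat.floor_le_floor h5
    rw [Nat.floor_add_one h9] at h10
    omega
  have hcard : ({n | n ∈ E ∧ n₀ ≤ n ∧ n ≤ N} : Set ℕ).ncard ≤
      (Nat.log 2 N + 1) * (⌊L / c⌋₊ + 1) := by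
    have h1 : ({n | n ∈ E ∧ n₀ ≤ n ∧ n ≤ N} : Set ℕ).ncard ≤
        ((range (Nat.log 2 N + 1) ×ˢ range (⌊L / c⌋₊ + 1) : Finset (ℕ × ℕ)) : Set (ℕ × ℕ)).ncard := by
      refine Set.ncard_le_ncard_of_injOn f ?_ ?_ (Finset.finite_toSet _)
      · rintro n ⟨_, hn, hnN⟩
        rw [Finset.mem_coe, Finset.mem_product, Finset.mem_range, Finset.mem_range]
        refine ⟨Nat.lt_succ_of_le (show Nat.log 2 n ≤ Nat.log 2 N from Nat.log_mono_right hnN),
          Nat.lt_succ_of_le ?_⟩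
        refine Nat.floor_le_floor ?_
        obtain ⟨h1, h2⟩ := hpow n hn
        have hk0 : (0 : ℝ) < 2 ^ Nat.log 2 n := by positivity
        rw [div_le_div_iff₀ (by positivity) hc]
        have h3 : ((n : ℝ) - 2 ^ Nat.log 2 n) * (L * c) ≤ 2 ^ Nat.log 2 n * (L * c) :=
          mul_le_mul_of_nonneg_right (by linarith) (by positivity)
        nlinarith
      · rintro n ⟨hnE, hn, hnN⟩ m ⟨hmE, hm, hmN⟩ hf
        rcases lt_trichotomy n m with h | h | h
        · exact absurd hf (hlt n m hnE hmE hn hmN h)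
        · exact h
        · exact absurd hf.symm (hlt m n hmE hnE hm hnN h)
    rwa [Set.ncard_coe_finset, Finset.card_product, Finset.card_range, Finset.card_range] at h1
  have htot : ({n | n ∈ E ∧ n ≤ N} : Set ℕ).ncard ≤ n₀ + (Nat.log 2 N + 1) * (⌊L / c⌋₊ + 1) := by
    have h1 : ({n | n ∈ E ∧ n ≤ N} : Set ℕ) ⊆
        ((range n₀ : Finset ℕ) : Set ℕ) ∪ {n | n ∈ E ∧ n₀ ≤ n ∧ n ≤ N} := by
      rintro n ⟨hnE, hnN⟩
      rcases lt_or_ge n n₀ with h | h
      · left; rw [Finset.mem_coe, Finset.mem_range]; exact h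
      · right; exact ⟨hnE, h, hnN⟩
    have hfin : ({n | n ∈ E ∧ n₀ ≤ n ∧ n ≤ N} : Set ℕ).Finite :=
      (Set.finite_Iic N).subset fun n hn => hn.2.2
    refine (Set.ncard_le_ncard h1 ((Finset.finite_toSet _).union hfin)).trans ?_
    refine (Set.ncard_union_le _ _).trans ?_
    rw [Set.ncard_coe_finset, Finset.card_range]
    omega
  have hK : (Nat.log 2 N : ℝ) ≤ L / Real.log 2 := by
    have h1 := Real.natLog_le_logb N 2
    rw [Real.logb, hLN] at h1
    exact_mod_cast h1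
  have hR : (⌊L / c⌋₊ : ℝ) ≤ L / c := Nat.floor_le (by positivity)
  have htot' : (({n | n ∈ E ∧ n ≤ N} : Set ℕ).ncard : ℝ) ≤
      n₀ + ((Nat.log 2 N : ℝ) + 1) * ((⌊L / c⌋₊ : ℝ) + 1) := by exact_mod_cast htot
  have hone : 1 ≤ L / Real.log 2 := by rw [le_div_iff₀ hl2]; linarith
  refine htot'.trans ?_
  have h1 : ((Nat.log 2 N : ℝ) + 1) * ((⌊L / c⌋₊ : ℝ) + 1) ≤
      (2 * (L / Real.log 2)) * (L / c + L / Real.log 2) := by
    refine mul_le_mul (by linarith) (by linarith) (by positivity) (by positivity)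
  have h2 : (n₀ : ℝ) ≤ n₀ * (L / Real.log 2) ^ 2 := by
    have : 1 ≤ (L / Real.log 2) ^ 2 := one_le_pow₀ hone
    nlinarith [Nat.cast_nonneg (α := ℝ) n₀]
  have h3 : (n₀ / Real.log 2 ^ 2 + 2 / Real.log 2 * (1 / c + 1 / Real.log 2)) * L ^ 2 =
      n₀ * (L / Real.log 2) ^ 2 + (2 * (L / Real.log 2)) * (L / c + L / Real.log 2) := by
    field_simp
  rw [h3]
  linarith

end Pool.Agent.K3h66.AT
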